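import Pool.Agent.H.MP_adcce9_an.Main

namespace Pool.Agent.Results.MP_adcce9_an.NoCopy

open ZeroAtInfty Pool.Agent.H.MP_adcce9_an Pool.Agent.Lib.helper22.Lind

variable (X : Type*) [NormedAddCommGroup X] [NormedSpace ℝ X]

def Sierp (f : ℕ → ℚ) : Prop :=
  ∃ J : (ℕ →₀ ℝ) →ₗ[ℝ] X, DenseRange J ∧
    ∀ a, IsLUB {s | ∃ C : Finset ℕ, StrictMonoOn f C ∧ s = ∑ i ∈ C, |a i|} ‖J a‖

def Copy (E : Type) [NormedAddCommGroup E] [NormedSpace ℝ E] (g : ℝ → ℝ → ℝ) : Prop :=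
  ∃ T : E × E →ₗ[ℝ] X, ∀ u v, ‖T (u, v)‖ = g ‖u‖ ‖v‖

theorem result [CompleteSpace X] (f : ℕ → ℚ) (H : Sierp X f) :
    ¬ Copy X (lp (fun _ : ℕ => ℝ) 1) max ∧ ¬ Copy X C₀(ℕ, ℝ) (· + ·) := by
  obtain ⟨J, hJ, h⟩ := H
  constructor <;> rintro ⟨T, hT⟩
  · let s (k : ℕ) (r : ℝ) : lp (fun _ : ℕ => ℝ) 1 := lp.single 1 k r
    have s1 : ∀ k r, ‖s k r‖ = |r| := fun k r =>
      lp.norm_single (E := fun _ : ℕ => ℝ) one_pos k r
    have s2 : ∀ k l, ‖s (k + 1) (1 / 2) - s (l + 1) (1 / 2)‖ ≤ 1 := fun k l =>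
      (norm_sub_le _ _).trans (by rw [s1, s1]; norm_num)
    have s3 : ∀ k l, k ≠ l → 2 ≤ ‖s 0 1 + (s (k + 1) (1 / 2) - s (l + 1) (1 / 2))‖ := by
      intro k l e
      have := lp.sum_rpow_le_norm_rpow (by simp)
        (s 0 1 + (s (k + 1) (1 / 2) - s (l + 1) (1 / 2))) {0, k + 1, l + 1}
      rw [Finset.sum_insert (by simp), Finset.sum_pair (by simpa using e)] at this
      simp [s, lp.single_apply, e, e.symm] at this ⊢
      linarith
    refine key hJ h (T (s 0 1, 0)) (T (0, s 0 1)) (fun k => T (s (k + 1) (1 / 2), 0))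
      (fun k => T (0, s (k + 1) (1 / 2))) (by simp [hT, s1]) (by simp [hT, s1])
      (fun k l e => ?_) fun k l e => ?_ <;>
    · simp only [← map_sub, ← map_add, Prod.mk_sub_mk, Prod.mk_add_mk, hT, sub_zero, add_zero,
        zero_add, norm_zero, max_le_iff, le_max_iff, s2, s3 k l e, s1]
      simp
  · let s (k : ℕ) : C₀(ℕ, ℝ) := (2 : ℝ) • e k
    have s0 : ∀ k n, s k n = if n = k then 1 else 0 := fun k n => by
      show 2 * e k n = _
      rw [e_app]; split_ifs <;> simp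
    have s1 : ‖s 0‖ = 1 := le_antisymm (nle _ zero_le_one fun n => by rw [s0]; split_ifs <;> simp)
      (by simpa [s0] using co (s 0) 0)
    have s2 : ∀ k l, k ≠ l → ‖s (k + 1) - s (l + 1)‖ = 1 := fun k l e =>
      le_antisymm (nle _ zero_le_one fun n => by
        rw [ZeroAtInftyContinuousMap.sub_apply, s0, s0]; split_ifs <;> simp)
      (by simpa [s0, e] using co (s (k + 1) - s (l + 1)) (k + 1))
    have s3 : ∀ k l, ‖s 0 + (s (k + 1) - s (l + 1))‖ ≤ 1 := fun k l => nle _ zero_le_one fun n => by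
      rw [ZeroAtInftyContinuousMap.add_apply, ZeroAtInftyContinuousMap.sub_apply, s0, s0, s0]
      split_ifs <;> first | omega | simp
    have z : ‖(0 : C₀(ℕ, ℝ))‖ = 0 := norm_zero
    refine key hJ h (T (s 0, 0)) (T (0, s 0)) (fun k => T (0, s (k + 1)))
      (fun k => T (s (k + 1), 0)) (by rw [hT, s1, z]; simp) (by rw [hT, s1, z]; simp)
      (fun k l e => ?_) fun k l e => ?_ <;>
    · simp only [← map_sub, ← map_add, Prod.mk_sub_mk, Prod.mk_add_mk, hT, sub_zero, add_zero,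
        zero_add, z, s2 k l e, s3, s1]
      norm_num

end Pool.Agent.Results.MP_adcce9_an.NoCopy
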